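import Pool.Agent.MP_d32a63_an.H39.Prep1

/-! Row PREP, part 2: the choice of the parameters. -/

open Set Filter Topology Metric Polynomial
open Complex (I)
open Pool.Agent.MP_d32a63_an.H95 (Core Sec jet W0 Flat)
open Pool.Agent.MP_d32a63_an.H58

namespace Pool.Agent.MP_d32a63_an.H39

noncomputable section

lemma exists_den {Γ : Set Seg} (hf : Γ.Finite) (hr : ∀ g ∈ Γ, ∃ q : ℚ, g.p.re = q) :
    ∃ D : ℕ, 0 < D ∧ ∀ g ∈ Γ, ∃ z : ℤ, g.p.re * D = z := by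
  induction Γ, hf using Set.Finite.induction_on with
  | empty => exact ⟨1, one_pos, fun g hg => absurd hg (notMem_empty g)⟩
  | @insert a s _ _ ih =>
    obtain ⟨D, hD, h⟩ := ih fun g hg => hr g (mem_insert_of_mem _ hg)
    obtain ⟨q, hq⟩ := hr a (mem_insert _ _)
    refine ⟨q.den * D, Nat.mul_pos q.den_pos hD, fun g hg => ?_⟩
    rcases hg with rfl | hg
    · refine ⟨q.num * D, ?_⟩
      have : (q : ℝ) * q.den = q.num := by exact_mod_cast Rat.mul_den_eq_num q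
      rw [hq]
      push_cast
      rw [← this]
      ring
    · obtain ⟨z, hz⟩ := h g hg
      refine ⟨q.den * z, ?_⟩
      push_cast
      rw [← hz]
      ring

lemma exists_mesh {Γ : Set Seg} (hf : Γ.Finite) (hr : ∀ g ∈ Γ, ∃ q : ℚ, g.p.re = q) {b : ℝ}
    (hb : 0 < b) : ∃ ℓ : ℝ, 0 < ℓ ∧ ℓ ≤ b ∧ (∃ q : ℚ, ℓ = q) ∧
      ∀ g ∈ Γ, ∃ k : ℤ, k % 3 = 0 ∧ g.p.re = (k : ℝ) * ℓ := by
  obtain ⟨D, hD, h⟩ := exists_den hf hr
  obtain ⟨m, hm⟩ := exists_nat_gt (1 / b)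
  have hm0 : (0 : ℝ) < m := lt_trans (by positivity) hm
  have hD1 : (1 : ℝ) ≤ D := by exact_mod_cast hD
  refine ⟨1 / (3 * D * m), by positivity, ?_, ⟨1 / (3 * D * m), by push_cast; rfl⟩, fun g hg => ?_⟩
  · rw [div_lt_iff₀ hb] at hm
    rw [div_le_iff₀ (by positivity)]
    have : 0 < (m : ℝ) * b := by positivity
    nlinarith
  · obtain ⟨z, hz⟩ := h g hg
    refine ⟨3 * (z * m), by omega, ?_⟩
    push_cast
    rw [← hz]
    field_simp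

lemma exists_len {Γ : Set Seg} (hf : Γ.Finite) (hn : ∀ g ∈ Γ, g.p ≠ g.v) :
    ∃ L : ℝ, 0 < L ∧ ∀ g ∈ Γ, L ≤ ‖g.v - g.p‖ := by
  induction Γ, hf using Set.Finite.induction_on with
  | empty => exact ⟨1, one_pos, fun g hg => absurd hg (notMem_empty g)⟩
  | @insert a s _ _ ih =>
    obtain ⟨L, hL, h⟩ := ih fun g hg => hn g (mem_insert_of_mem _ hg)
    refine ⟨min L ‖a.v - a.p‖, lt_min hL (norm_pos_iff.2 (sub_ne_zero.2 (hn a (mem_insert _ _)).symm)),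
      fun g hg => ?_⟩
    rcases hg with rfl | hg
    · exact min_le_right _ _
    · exact (min_le_left _ _).trans (h g hg)

lemma exists_N {X : ℝ} (hX : 6 ≤ X) : ∃ N : ℕ, 6 ∣ N ∧ X ≤ N ∧ (N : ℝ) ≤ 2 * X := by
  refine ⟨6 * ⌈X / 6⌉₊, dvd_mul_right _ _, ?_, ?_⟩
  · have := Nat.le_ceil (X / 6)
    push_cast
    linarith
  · have := Nat.ceil_lt_add_one (show 0 ≤ X / 6 by linarith)
    push_cast
    linarith

lemma exists_eps {r : ℕ} (hr : 1 ≤ r) {κ a ℓ : ℝ} (hκ : 0 < κ) (ha : a ≤ 1 / 100) (hl : 0 < ℓ)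
    (hla : ℓ ≤ a) : ∃ (N : ℕ) (ε : ℝ), 6 ∣ N ∧ 4 ≤ a * N ∧ κ / (100 * r.factorial) ≤ ε ∧
      ε * r.factorial ≤ κ / 50 ∧ κ / 50 / N = ε * (ℓ / 8) ^ r := by
  have hf : (1 : ℝ) ≤ r.factorial := by exact_mod_cast r.factorial_pos
  have hp : 0 < (ℓ / 8) ^ r := by positivity
  have hp1 : (ℓ / 8) ^ r ≤ ℓ / 8 := pow_le_of_le_one (by positivity) (by linarith) (by omega)
  have ha0 : 0 < a := hl.trans_le hla
  have hX : 8 ≤ a * (r.factorial / (ℓ / 8) ^ r) := by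
    rw [← mul_div_assoc, le_div_iff₀ hp]
    nlinarith
  have hX0 : 0 < r.factorial / (ℓ / 8) ^ r := by positivity
  obtain ⟨N, h6, h1, h2⟩ := exists_N (X := r.factorial / (ℓ / 8) ^ r) (by nlinarith)
  have hN : (0 : ℝ) < N := hX0.trans_le h1
  refine ⟨N, κ / 50 / N / (ℓ / 8) ^ r, h6, by nlinarith, ?_, ?_, by field_simp⟩
  · rw [← mul_div_assoc, le_div_iff₀ hp] at h2
    rw [div_div, div_div, div_le_div_iff₀ (by positivity) (by positivity)]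
    nlinarith
  · rw [div_le_iff₀ hp] at h1
    rw [div_div, div_mul_eq_mul_div, div_le_iff₀ (by positivity)]
    nlinarith

lemma fin_sub {o : Obj} (hs : o.s = 1 ∨ o.s = -1) (hΛ : 0 ≤ o.Λ) : ‖o.fin - o.y‖ = o.Λ := by
  rw [Obj.fin, add_sub_cancel_left, norm_mul, Complex.norm_I, Complex.norm_real, mul_one,
    Real.norm_eq_abs]
  rcases hs with h | h <;> rw [h] <;> simp [abs_of_nonneg hΛ]

lemma seg_near {y v z : ℂ} (hz : z ∈ segment ℝ y v) : ‖z - y‖ ≤ ‖v - y‖ := by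
  have h : segment ℝ y v ⊆ closedBall y ‖v - y‖ :=
    (convex_closedBall y _).segment_subset (mem_closedBall_self (norm_nonneg _))
      (by rw [mem_closedBall, dist_eq_norm])
  have := h hz
  rwa [mem_closedBall, dist_eq_norm] at this

lemma start_norm (hB : BASIC) {W : Set ℂ} (hW : W0 ⊆ W) {y v : ℂ}
    (h : Disjoint (openSegment ℝ y v) (closure W)) (hv : ‖v - y‖ ≤ 1) : ‖y‖ ≤ 2 := by
  have hm : (1 / 2 : ℝ) • y + (1 / 2 : ℝ) • v ∈ openSegment ℝ y v :=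
    ⟨1 / 2, 1 / 2, by norm_num, by norm_num, by norm_num, rfl⟩
  have h1 := (hB.inn W _ hW fun e => Set.disjoint_left.1 h hm (subset_closure e)).2
  have h2 := seg_near (openSegment_subset_segment ℝ y v hm)
  have h3 := norm_sub_le ((1 / 2 : ℝ) • y + (1 / 2 : ℝ) • v) ((1 / 2 : ℝ) • y + (1 / 2 : ℝ) • v - y)
  rw [sub_sub_cancel] at h3
  linarith

/-- The polynomials of the vertical objects. -/
lemma exists_To (hB : BASIC) {n : ℕ} {W : Set ℂ} {F : ℕ → ℂ → ℂ} {Γ : Set Seg} (hW : W0 ⊆ W)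
    (hΓ : Gaps n W F Γ) {d ℓ : ℝ} (hl : 0 < ℓ) (hd : d ≤ 1 / 10) {O : Set Obj}
    (geo : ObjGeo W ℓ O) (good : ObjGood W Γ d ℓ O) {mo : ℝ → ℝ}
    (hmo : ∀ γ : ℝ, 0 < γ → ∀ y z : ℂ, ‖y‖ ≤ 2 → ‖z - y‖ ≤ mo γ → ∀ j ≤ n,
      ‖jet (tay (n + 1) F y) j z - F j z‖ ≤ γ ∧ ‖F j z - F j y‖ ≤ γ) :
    ∃ To : Obj → ℂ[X], ∀ o ∈ O,
      (∀ j ≤ n, jet (To o) j o.y = F j o.y ∧ (o.thr → jet (To o) j o.fin = F j o.fin)) ∧
      (o.thr → ∀ j ≤ n, ∀ z ∈ segment ℝ o.y o.fin, ‖jet (To o) j z - F j z‖ ≤ 0) ∧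
      ∀ γ : ℝ, 0 < γ → 2 * d ≤ mo γ → ∀ j ≤ n, ∀ z ∈ segment ℝ o.y o.fin,
        ‖jet (To o) j z - F j z‖ ≤ γ := by
  have key : ∀ o : Obj, ∃ T : ℂ[X], o ∈ O →
      (∀ j ≤ n, jet T j o.y = F j o.y ∧ (o.thr → jet T j o.fin = F j o.fin)) ∧
      (o.thr → ∀ j ≤ n, ∀ z ∈ segment ℝ o.y o.fin, ‖jet T j z - F j z‖ ≤ 0) ∧
      ∀ γ : ℝ, 0 < γ → 2 * d ≤ mo γ → ∀ j ≤ n, ∀ z ∈ segment ℝ o.y o.fin,
        ‖jet T j z - F j z‖ ≤ γ := by
    intro o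
    by_cases ho : o ∈ O
    swap
    · exact ⟨0, fun h => absurd h ho⟩
    by_cases ht : o.thr
    · obtain ⟨g, hg, e1, e2⟩ := good.th' o ho ht
      have h0 : ∀ j ≤ n, ∀ z ∈ segment ℝ o.y o.fin, jet g.T j z = F j z := fun j hj z hz =>
        (hΓ.jets g hg j hj z (by rwa [← e1, ← e2])).symm
      refine ⟨g.T, fun _ => ⟨fun j hj => ⟨h0 j hj _ (left_mem_segment ℝ _ _),
        fun _ => h0 j hj _ (right_mem_segment ℝ _ _)⟩, fun _ j hj z hz => ?_,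
        fun γ hγ _ j hj z hz => ?_⟩⟩
      · rw [h0 j hj z hz, sub_self, norm_zero]
      · rw [h0 j hj z hz, sub_self, norm_zero]
        exact hγ.le
    · have hΛ : ‖o.fin - o.y‖ ≤ 2 * d := by
        rw [fin_sub (geo.sg o ho) (by have := geo.len o ho; linarith)]
        exact (good.prb o ho ht).1
      have hy := start_norm hB hW (geo.free o ho) (by linarith)
      exact ⟨tay (n + 1) F o.y, fun _ => ⟨fun j hj => ⟨hB.jt _ _ _ j (by omega),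
        fun h => absurd h ht⟩, fun h => absurd h ht, fun γ hγ h2 j hj z hz =>
          (hmo γ hγ o.y z hy ((seg_near hz).trans (hΛ.trans h2)) j hj).1⟩⟩
  choose To hTo using key
  exact ⟨To, hTo⟩

/-- The largest deviation of `T` from `f` on a segment. -/
def dev (T : ℂ[X]) (f : ℂ → ℂ) (y v : ℂ) : ℝ :=
  sSup ((fun z => ‖T.eval z - f z‖) '' segment ℝ y v)

lemma dev_nonneg (T : ℂ[X]) (f : ℂ → ℂ) (y v : ℂ) : 0 ≤ dev T f y v :=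
  Real.sSup_nonneg (by rintro _ ⟨z, -, rfl⟩; exact norm_nonneg _)

lemma dev_le {T : ℂ[X]} {f : ℂ → ℂ} {y v : ℂ} {γ : ℝ} (hγ : 0 ≤ γ)
    (h : ∀ z ∈ segment ℝ y v, ‖T.eval z - f z‖ ≤ γ) : dev T f y v ≤ γ :=
  Real.sSup_le (by rintro _ ⟨z, hz, rfl⟩; exact h z hz) hγ

lemma le_dev {T : ℂ[X]} {f : ℂ → ℂ} {y v : ℂ} {γ : ℝ}
    (h : ∀ z ∈ segment ℝ y v, ‖T.eval z - f z‖ ≤ γ) {z : ℂ} (hz : z ∈ segment ℝ y v) :
    ‖T.eval z - f z‖ ≤ dev T f y v :=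
  le_csSup ⟨γ, by rintro _ ⟨z, hz, rfl⟩; exact h z hz⟩ ⟨z, hz, rfl⟩

lemma cost_le {Cg κ τ a γ μ c B : ℝ} {N xw : ℕ} (hC : 0 < Cg) (hκ : 0 < κ) (hτ : 0 < τ)
    (hτ1 : τ ≤ 1 / 50) (ha : 0 < a) (hγ0 : 0 ≤ γ) (hγ : γ ≤ a) (hμ : 0 ≤ μ) (hN : (0 : ℝ) < N)
    (hxw : (xw : ℝ) ≤ 2 * a * N) (hc : c ≤ B) (hB : 0 ≤ B) :
    Cg * c * (2 * (γ + 2 * τ * xw / N + μ) + 2 * (3 * τ / N) * xw) / κ ≤
      Cg * B * (3 * a + 2 * μ) / κ := by
  have h1 : (xw : ℝ) / N ≤ 2 * a := by rw [div_le_iff₀ hN]; exact hxw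
  have h0 : 0 ≤ (xw : ℝ) / N := by positivity
  have e : 2 * (γ + 2 * τ * xw / N + μ) + 2 * (3 * τ / N) * xw =
      2 * γ + 10 * τ * ((xw : ℝ) / N) + 2 * μ := by ring
  rw [e]
  have h2 : 10 * τ * ((xw : ℝ) / N) ≤ a := by nlinarith
  have h3 : 0 ≤ 10 * τ * ((xw : ℝ) / N) := by positivity
  gcongr
  linarith

theorem prep : R_PREP := by
  intro hB hM hO r c γ ω hr hc hc1 hγ hω hD Cg hCg
  refine ⟨c, ω, hc, fun s Γ hΓ κ hκ hκ1 => ?_⟩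
  obtain ⟨mo, M, hM0, hmo0, hFM, hmo⟩ := hM (2 * r) s
  obtain ⟨dO, hdO, hO'⟩ := hO (2 * r) s Γ hΓ
  have hτ : 0 < κ / 50 := by positivity
  obtain ⟨ℓD, K1, hℓD, hK1, hD'⟩ := hD (21 * M + 2) (κ / 50) (by positivity) hτ
  obtain ⟨L, hL, hLg⟩ := exists_len hΓ.fin hΓ.ne
  refine ⟨κ / 50, κ / (100 * r.factorial), 21 * M + 2, min dO (min (1 / 10) (mo (κ / 2) / 2)),
    fun η => min (η * κ / (6 * Cg)) (mo (η * κ / (4 * Cg)) / 2), hτ, by positivity, by positivity,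
    lt_min hdO (lt_min (by norm_num) (half_pos (hmo0 _ (half_pos hκ)))),
    fun η hη => lt_min (by positivity) (half_pos (hmo0 _ (by positivity))), ?_⟩
  rintro d ⟨hd0, hd⟩
  have hd1 : d ≤ dO := hd.trans (min_le_left _ _)
  have hd2 : d ≤ 1 / 10 := hd.trans ((min_le_right _ _).trans (min_le_left _ _))
  have hd3 : 2 * d ≤ mo (κ / 2) := by
    have := hd.trans ((min_le_right _ _).trans (min_le_right _ _))
    linarith
  obtain ⟨a, ha0, ha1, ha2, ha3⟩ : ∃ a : ℝ, 0 < a ∧ a ≤ 1 / 100 ∧ a ≤ d ∧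
      a ≤ κ * d * L / (9 * Cg) :=
    ⟨min (1 / 100) (min d (κ * d * L / (9 * Cg))),
      lt_min (by norm_num) (lt_min hd0 (by positivity)), min_le_left _ _,
      (min_le_right _ _).trans (min_le_left _ _), (min_le_right _ _).trans (min_le_right _ _)⟩
  refine ⟨a, ha0, fun ℓ0 hℓ0 => ?_⟩
  obtain ⟨g2, hg0, hg1, hg2, hg3⟩ : ∃ g2 : ℝ, 0 < g2 ∧ g2 ≤ a ∧ 2 * g2 ≤ γ * (κ / 50) ∧
      2 * g2 ≤ 1 / 3000 * (κ / 50) := by
    refine ⟨min a (min (γ * (κ / 50) / 2) (1 / 3000 * (κ / 50) / 2)),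
      lt_min ha0 (lt_min (by positivity) (by positivity)), min_le_left _ _, ?_, ?_⟩
    · have := (min_le_right a _).trans (min_le_left (γ * (κ / 50) / 2) (1 / 3000 * (κ / 50) / 2))
      linarith
    · have := (min_le_right a _).trans (min_le_right (γ * (κ / 50) / 2) (1 / 3000 * (κ / 50) / 2))
      linarith
  obtain ⟨ℓ, hl, hlb, hlq, hlk⟩ := exists_mesh hΓ.fin hΓ.rat
    (b := min (min (min ℓ0 (d ^ 2)) (min ℓD (mo g2 / 5))) (min (min (κ / K1) (L / 4)) a))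
    (lt_min (lt_min (lt_min hℓ0 (by positivity)) (lt_min hℓD (by have := hmo0 _ hg0; positivity)))
      (lt_min (lt_min (by positivity) (by positivity)) ha0))
  simp only [le_min_iff] at hlb
  obtain ⟨⟨⟨l1, l2⟩, l3, l4⟩, ⟨l5, l6⟩, l7⟩ := hlb
  have l8 : ℓ ≤ 1 / 10 := by linarith
  obtain ⟨N, ε, h6, haN, he0, he1, hsig⟩ := exists_eps (r := r) (by omega) hκ ha1 hl l7
  have hf : (1 : ℝ) ≤ r.factorial := by exact_mod_cast r.factorial_pos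
  have he : 0 < ε := lt_of_lt_of_le (by positivity) he0
  have he2 : ε ≤ 1 := by nlinarith
  have hNr : (400 : ℝ) ≤ N := by
    have : (0 : ℝ) ≤ N := Nat.cast_nonneg N
    nlinarith
  have hN : 0 < N := by
    have : (0 : ℝ) < N := by linarith
    exact_mod_cast this
  obtain ⟨xw, hx1, hx2⟩ : ∃ xw : ℕ, a * N + 3 ≤ xw ∧ (xw : ℝ) ≤ 2 * a * N := by
    refine ⟨⌈a * N⌉₊ + 3, ?_, ?_⟩
    · have := Nat.le_ceil (a * N)
      push_cast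
      linarith
    · have := Nat.ceil_lt_add_one (show 0 ≤ a * N by linarith)
      push_cast
      linarith
  have hx3 : 2 * xw + 6 ≤ N := by
    have : (2 * xw + 6 : ℝ) ≤ N := by nlinarith
    exact_mod_cast this
  have hm : Mo (2 * r) s.F ℓ g2 := fun y z hy hz => hmo g2 hg0 y z hy (by linarith)
  have hcen : ∀ Q, act s.W ℓ Q → ‖cen ℓ Q‖ ≤ 1 := fun Q hQ => cen_norm hB s.base hl hQ
  have hcd : ∀ γ' : ℝ, 2 * g2 ≤ γ' * (κ / 50) → ∀ Q, act s.W ℓ Q →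
      CD r N γ' (21 * M + 2) (κ / 50) ε ℓ ω (cen ℓ Q) (s.F 0 (cen ℓ Q)) Q.1
        (EV (2 * r) s.F (κ / 50) ℓ (V0 Q)) (EV (2 * r) s.F (κ / 50) ℓ (V1 Q))
        (EV (2 * r) s.F (κ / 50) ℓ (V2 Q)) := fun γ' h Q hQ =>
    cd_of hB hτ (by linarith) hl l8 he he2 hω hN hsig hM0 hFM hm h (hcen Q hQ)
  have key : ∀ Q : ℤ × ℤ, ∃ (Z : Finset ℂ) (Lk : ℤ × ℤ → ℤ × ℤ → Finset ℂ), act s.W ℓ Q →
      (∀ ζ ∈ Z, ‖ζ - cen ℓ Q‖ ≤ ℓ / 3) ∧
      (∀ ζ ∈ Z, ∀ ζ' ∈ Z, ζ ≠ ζ' → c * ℓ ≤ |ζ.re - ζ'.re|) ∧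
      LkOK r c ℓ (cen ℓ Q) (TT r N s.F (κ / 50) ε ℓ ω Q) Lk ∧
      ∀ m m', Nb m m' → ∀ ζ ∈ Lk m m', ζ ∈ Z ∧
        ‖(TT r N s.F (κ / 50) ε ℓ ω Q m' - TT r N s.F (κ / 50) ε ℓ ω Q m).eval ζ‖ ≤
          K1 * ℓ ^ (2 * r + 1) := by
    intro Q
    by_cases hQ : act s.W ℓ Q
    · obtain ⟨Z, Lk, h⟩ := hD' N ε ℓ _ _ _ _ _ _ (hcd γ hg2 Q hQ) l3
      exact ⟨Z, Lk, fun _ => h⟩
    · exact ⟨∅, fun _ _ => ∅, fun h => absurd h hQ⟩
  choose Z Lk hZ using key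
  obtain ⟨O, geo, good⟩ := hO' d ⟨hd0, hd1⟩ ℓ hl l2 hlk
  obtain ⟨To, hTo⟩ := exists_To hB s.base hΓ hl hd2 geo good hmo
  have hdev : ∀ o ∈ O, ∀ γ' : ℝ, 0 < γ' → 2 * d ≤ mo γ' → ∀ z ∈ segment ℝ o.y o.fin,
      ‖(To o).eval z - s.F 0 z‖ ≤ γ' := fun o ho γ' h1 h2 z hz => by
    rw [← hB.j0]
    exact (hTo o ho).2.2 γ' h1 h2 0 (Nat.zero_le _) z hz
  refine ⟨⟨ℓ, N, xw, c, K1 * ℓ ^ (2 * r + 1), 3 * (κ / 50) / N, TT r N s.F (κ / 50) ε ℓ ω, Z, Lk⟩,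
    O, To, fun o => g2 + 2 * (κ / 50) * xw / N + dev (To o) (s.F 0) o.y o.fin, ε, l1, ?_⟩
  refine ⟨⟨hl, l8, hlq, hN, h6, hx3, hc, hc1, by positivity, by positivity,
    fun Q hQ => (hZ Q hQ).1, fun Q hQ => (hZ Q hQ).2.1, fun Q hQ => (hZ Q hQ).2.2.2,
    fun Q hQ m hd => close_TT hB hτ hl l8 he hω hN hm (by linarith) (hcen Q hQ) hd,
    shv_TT r N s.F _ ε ℓ ω, shh_TT r N h6 s.F _ ε ℓ ω, geo, fun o ho => (hTo o ho).1,
    fun o ho => (hTo o ho).2.2 _ (half_pos hκ) hd3, fun o _ => ?_, ?_⟩, good, rfl, l2, ?_, he0,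
    hcd _ hg3, fun _ _ => rfl, fun Q hQ => (hZ Q hQ).2.2.1, hx1, ?_, ?_⟩
  · have := dev_nonneg (To o) (s.F 0) o.y o.fin
    positivity
  · intro o ho j hj x hx z hz hs
    have hq := hcen _ (geo.st o ho j hj).2.1
    refine ⟨?_, fun x' hx' => diff_TT hB hτ hl l8 hN hm (by linarith) (good.k3 o ho) hq hx.1
      hx'.1 hz⟩
    have h1 := side_TT (ε := ε) (ω := ω) hB hτ hl l8 hN hx3 hm (good.k3 o ho) hq hx.1 hx.2 hz
    have h2 := le_dev (hdev o ho _ (half_pos hκ) hd3) hs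
    have h3 := norm_sub_le ((To o).eval z - s.F 0 z)
      ((TT r N s.F (κ / 50) ε ℓ ω (o.k, j) (0, x)).eval z - s.F 0 z)
    rw [sub_sub_sub_cancel_right, ← eval_sub] at h3
    exact h3.trans (by linarith)
  · change K1 * ℓ ^ (2 * r + 1) ≤ κ * ℓ ^ (2 * r)
    rw [le_div_iff₀ hK1] at l5
    have : 0 < ℓ ^ (2 * r) := by positivity
    rw [pow_succ]
    nlinarith
  · intro o ho ht
    obtain ⟨g, hg, e1, e2⟩ := good.th' o ho ht
    have hΛ : L ≤ o.Λ := by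
      rw [← fin_sub (geo.sg o ho) (by have := geo.len o ho; linarith), e1, e2]
      exact hLg g hg
    have h0 : dev (To o) (s.F 0) o.y o.fin = 0 :=
      le_antisymm (dev_le le_rfl fun z hz => by
        rw [← hB.j0]
        exact (hTo o ho).2.1 ht 0 (Nat.zero_le _) z hz) (dev_nonneg _ _ _ _)
    have h1 := cost_le (N := N) (xw := xw) hCg hκ hτ (by linarith) ha0 hg0.le hg1
      (dev_nonneg (To o) (s.F 0) o.y o.fin) (by linarith) hx2 (good.card o ho) (by positivity)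
    have h2 : Cg * (3 / d) * (3 * a + 2 * dev (To o) (s.F 0) o.y o.fin) / κ ≤ L := by
      rw [h0, div_le_iff₀ hκ]
      rw [le_div_iff₀ (by positivity)] at ha3
      have e : Cg * (3 / d) * (3 * a + 2 * 0) = a * (9 * Cg) / d := by ring
      rw [e, div_le_iff₀ hd0]
      linarith
    have h3 : ℓ ^ (2 * r) ≤ ℓ := pow_le_of_le_one hl.le (by linarith) (by omega)
    exact ⟨(add_le_add (h1.trans h2) h3).trans (by linarith), by change 4 * ℓ ≤ _; linarith⟩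
  · intro o ho ht η hη hdη
    rw [le_min_iff] at hdη
    have hc1 : (o.St.card : ℝ) ≤ 1 := by exact_mod_cast (good.prb o ho ht).2
    have h0 : dev (To o) (s.F 0) o.y o.fin ≤ η * κ / (4 * Cg) :=
      dev_le (by positivity) (hdev o ho _ (by positivity) (by linarith [hdη.2]))
    have h1 := cost_le (N := N) (xw := xw) hCg hκ hτ (by linarith) ha0 hg0.le hg1
      (dev_nonneg (To o) (s.F 0) o.y o.fin) (by linarith) hx2 hc1 zero_le_one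
    refine h1.trans ?_
    have h2 := ha2.trans hdη.1
    rw [le_div_iff₀ (by positivity)] at h0 h2
    rw [div_le_iff₀ hκ]
    nlinarith

end

end Pool.Agent.MP_d32a63_an.H39
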