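import Pool.Agent.MP_d32a63_an.H58.Spec

/-! Row PREP, part 1: estimates for the polynomials of one cell. -/

open Set Filter Topology Metric Polynomial
open Complex (I)
open Pool.Agent.MP_d32a63_an.H95 (Core Sec jet W0 Flat)
open Pool.Agent.MP_d32a63_an.H58

namespace Pool.Agent.MP_d32a63_an.H39

noncomputable section

/-- `v` is one of the six vertices around the cell `Q`. -/
def Nr (Q v : ℤ × ℤ) : Prop :=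
  (v.1 = Q.1 - 1 ∨ v.1 = Q.1 ∨ v.1 = Q.1 + 1) ∧ (v.2 = Q.2 ∨ v.2 = Q.2 + 1)

lemma nr0 (Q : ℤ × ℤ) : Nr Q (V0 Q) := by
  refine ⟨Or.inl rfl, ?_⟩
  unfold V0
  split_ifs <;> simp

lemma nr1 (Q : ℤ × ℤ) : Nr Q (V1 Q) := by
  refine ⟨Or.inr (Or.inr rfl), ?_⟩
  unfold V1
  split_ifs <;> simp

lemma nr2 (Q : ℤ × ℤ) : Nr Q (V2 Q) := by
  refine ⟨Or.inr (Or.inl rfl), ?_⟩
  unfold V2
  split_ifs <;> simp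

lemma vtx_near {ℓ : ℝ} (hl : 0 < ℓ) {Q v : ℤ × ℤ} (h : Nr Q v) :
    ‖vtx ℓ v - cen ℓ Q‖ ≤ 2 * ℓ := by
  refine (Complex.norm_le_abs_re_add_abs_im _).trans ?_
  have h1 : (vtx ℓ v - cen ℓ Q).re = ((v.1 : ℝ) - Q.1) * ℓ := by
    simp [vtx, cen]; ring
  have h2 : (vtx ℓ v - cen ℓ Q).im = ((v.2 : ℝ) - Q.2 - 1 / 2) * ℓ := by
    simp [vtx, cen]; ring
  rw [h1, h2]
  have a1 : |((v.1 : ℝ) - Q.1) * ℓ| ≤ ℓ := by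
    rcases h.1 with e | e | e <;> rw [e] <;> push_cast <;> rw [abs_le] <;> constructor <;> nlinarith
  have a2 : |((v.2 : ℝ) - Q.2 - 1 / 2) * ℓ| ≤ ℓ := by
    rcases h.2 with e | e <;> rw [e] <;> push_cast <;> rw [abs_le] <;> constructor <;> nlinarith
  linarith

lemma cen_norm (hB : BASIC) {W : Set ℂ} (hW : W0 ⊆ W) {ℓ : ℝ} (hl : 0 < ℓ) {Q : ℤ × ℤ}
    (hQ : act W ℓ Q) : ‖cen ℓ Q‖ ≤ 1 := by
  refine (hB.inn W _ hW fun h => ?_).2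
  exact Set.disjoint_left.1 hQ (mem_ball_self (by linarith)) (subset_closure h)

/-- The modulus of the background at the scale `5 ℓ`. -/
def Mo (n : ℕ) (F : ℕ → ℂ → ℂ) (ℓ γ : ℝ) : Prop :=
  ∀ y z : ℂ, ‖y‖ ≤ 2 → ‖z - y‖ ≤ 5 * ℓ → ∀ j ≤ n,
    ‖jet (tay (n + 1) F y) j z - F j z‖ ≤ γ ∧ ‖F j z - F j y‖ ≤ γ

lemma vtx_norm {ℓ : ℝ} (hl : 0 < ℓ) (hl1 : ℓ ≤ 1 / 10) {Q v : ℤ × ℤ} (hx : ‖cen ℓ Q‖ ≤ 1)
    (h : Nr Q v) : ‖vtx ℓ v‖ ≤ 2 := by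
  have h1 := vtx_near hl h
  have h2 : ‖vtx ℓ v‖ ≤ ‖vtx ℓ v - cen ℓ Q‖ + ‖cen ℓ Q‖ := by
    simpa using norm_add_le (vtx ℓ v - cen ℓ Q) (cen ℓ Q)
  linarith

lemma sub_vtx {ℓ R : ℝ} (hl : 0 < ℓ) {Q v : ℤ × ℤ} (h : Nr Q v) {z : ℂ}
    (hz : ‖z - cen ℓ Q‖ ≤ R) : ‖z - vtx ℓ v‖ ≤ R + 2 * ℓ := by
  have h1 := vtx_near hl h
  have h2 : ‖z - vtx ℓ v‖ ≤ ‖z - cen ℓ Q‖ + ‖vtx ℓ v - cen ℓ Q‖ := by
    have := norm_sub_le (z - cen ℓ Q) (vtx ℓ v - cen ℓ Q)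
    simpa using this
  linarith

lemma tay_near {n : ℕ} {F : ℕ → ℂ → ℂ} {ℓ γ : ℝ} (hl : 0 < ℓ) (hl1 : ℓ ≤ 1 / 10)
    (hm : Mo n F ℓ γ) {Q v : ℤ × ℤ} (hx : ‖cen ℓ Q‖ ≤ 1) (h : Nr Q v) {z : ℂ}
    (hz : ‖z - cen ℓ Q‖ ≤ 3 * ℓ) {j : ℕ} (hj : j ≤ n) :
    ‖jet (tay (n + 1) F (vtx ℓ v)) j z - F j z‖ ≤ γ :=
  (hm _ z (vtx_norm hl hl1 hx h) ((sub_vtx hl h hz).trans (by linarith)) j hj).1

lemma jet_C (hB : BASIC) (a : ℂ) (j : ℕ) (z : ℂ) : ‖jet (C a) j z‖ ≤ ‖a‖ := by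
  cases j with
  | zero => rw [hB.j0]; simp
  | succ j => rw [hB.jC]; simp

lemma tau_acol (hB : BASIC) {τ : ℝ} (hτ : 0 < τ) (p : ℤ) : ‖(τ : ℂ) * acol p‖ ≤ 2 * τ := by
  rw [norm_mul, Complex.norm_real, Real.norm_of_nonneg hτ.le]
  have := hB.ac2 p
  nlinarith

lemma ev_eval (hB : BASIC) (n : ℕ) (F : ℕ → ℂ → ℂ) (τ ℓ : ℝ) (v : ℤ × ℤ) (z : ℂ) :
    (EV n F τ ℓ v).eval z = jet (tay (n + 1) F (vtx ℓ v)) 0 z + τ * acol v.1 := by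
  rw [hB.j0, EV, eval_add, eval_C]

lemma ev_jet (hB : BASIC) {n : ℕ} {F : ℕ → ℂ → ℂ} {τ ℓ γ : ℝ} (hτ : 0 < τ) (hl : 0 < ℓ)
    (hl1 : ℓ ≤ 1 / 10) (hm : Mo n F ℓ γ) {Q v : ℤ × ℤ} (hx : ‖cen ℓ Q‖ ≤ 1) (h : Nr Q v) {z : ℂ}
    (hz : ‖z - cen ℓ Q‖ ≤ 3 * ℓ) {j : ℕ} (hj : j ≤ n) :
    ‖jet (EV n F τ ℓ v) j z - F j z‖ ≤ γ + 2 * τ := by
  have h1 := tay_near hl hl1 hm hx h hz hj
  have h2 := (jet_C hB ((τ : ℂ) * acol v.1) j z).trans (tau_acol hB hτ v.1)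
  rw [EV, hB.jadd, add_sub_right_comm]
  exact (norm_add_le _ _).trans (add_le_add h1 h2)

lemma ev_deg (hB : BASIC) (n : ℕ) (F : ℕ → ℂ → ℂ) (τ ℓ : ℝ) (v : ℤ × ℤ) :
    (EV n F τ ℓ v).natDegree ≤ n := by
  rw [EV, natDegree_add_C]
  exact hB.ndeg n F _

lemma ev_bd (hB : BASIC) {n : ℕ} {F : ℕ → ℂ → ℂ} {τ ℓ M : ℝ} (hτ : 0 < τ) (hτ1 : τ ≤ 1)
    (hl : 0 < ℓ) (hl1 : ℓ ≤ 1 / 10) (hM : 0 < M) (hF : ∀ j ≤ n, ∀ z : ℂ, ‖z‖ ≤ 3 → ‖F j z‖ ≤ M)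
    {Q v : ℤ × ℤ} (hx : ‖cen ℓ Q‖ ≤ 1) (h : Nr Q v) {z : ℂ} (hz : z ∈ closedBall (cen ℓ Q) 2) :
    ‖(EV n F τ ℓ v).eval z‖ ≤ 21 * M + 2 := by
  rw [mem_closedBall, dist_eq_norm] at hz
  have h1 := hB.bd (n + 1) F (vtx ℓ v) M hM.le
    (fun j hj => hF j (by omega) _ ((vtx_norm hl hl1 hx h).trans (by norm_num))) 0 z
    ((sub_vtx hl h hz).trans (by linarith))
  have h2 := tau_acol hB hτ v.1
  rw [ev_eval hB]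
  exact (norm_add_le _ _).trans (by linarith)

lemma ev_near (hB : BASIC) {n : ℕ} {F : ℕ → ℂ → ℂ} {τ ℓ γ : ℝ} (hl : 0 < ℓ)
    (hl1 : ℓ ≤ 1 / 10) (hm : Mo n F ℓ γ) {Q v : ℤ × ℤ} (hx : ‖cen ℓ Q‖ ≤ 1) (h : Nr Q v) {z : ℂ}
    (hz : z ∈ closedBall (cen ℓ Q) (3 * ℓ)) :
    ‖(EV n F τ ℓ v).eval z - (F 0 (cen ℓ Q) + τ * acol v.1)‖ ≤ 2 * γ := by
  rw [mem_closedBall, dist_eq_norm] at hz
  have h1 := tay_near hl hl1 hm hx h hz (Nat.zero_le n)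
  have h2 := (hm (cen ℓ Q) z (by linarith) (by linarith) 0 (Nat.zero_le n)).2
  have e : (EV n F τ ℓ v).eval z - (F 0 (cen ℓ Q) + τ * acol v.1) =
      (jet (tay (n + 1) F (vtx ℓ v)) 0 z - F 0 z) + (F 0 z - F 0 (cen ℓ Q)) := by
    rw [ev_eval hB]; ring
  rw [e]
  exact (norm_add_le _ _).trans (by linarith)

lemma cd_of (hB : BASIC) {r N : ℕ} {F : ℕ → ℂ → ℂ} {τ ε ℓ M γ γ' : ℝ} {ω : ℂ} (hτ : 0 < τ)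
    (hτ1 : τ ≤ 1) (hl : 0 < ℓ) (hl1 : ℓ ≤ 1 / 10) (he : 0 < ε) (he1 : ε ≤ 1) (hω : ‖ω‖ = 1)
    (hN : 0 < N) (hs : τ / N = ε * (ℓ / 8) ^ r) (hM : 0 < M)
    (hF : ∀ j ≤ 2 * r, ∀ z : ℂ, ‖z‖ ≤ 3 → ‖F j z‖ ≤ M) (hm : Mo (2 * r) F ℓ γ)
    (hγ : 2 * γ ≤ γ' * τ) {Q : ℤ × ℤ} (hx : ‖cen ℓ Q‖ ≤ 1) :
    CD r N γ' (21 * M + 2) τ ε ℓ ω (cen ℓ Q) (F 0 (cen ℓ Q)) Q.1 (EV (2 * r) F τ ℓ (V0 Q))
      (EV (2 * r) F τ ℓ (V1 Q)) (EV (2 * r) F τ ℓ (V2 Q)) where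
  l0 := hl
  l1 := hl1
  t0 := hτ
  t1 := hτ1
  e0 := he
  e1 := he1
  om := hω
  N0 := hN
  sig := hs
  d0 := ev_deg hB _ _ _ _ _
  d1 := ev_deg hB _ _ _ _ _
  d2 := ev_deg hB _ _ _ _ _
  bd := fun _ hz => ⟨ev_bd hB hτ hτ1 hl hl1 hM hF hx (nr0 Q) hz,
    ev_bd hB hτ hτ1 hl hl1 hM hF hx (nr1 Q) hz, ev_bd hB hτ hτ1 hl hl1 hM hF hx (nr2 Q) hz⟩
  near := fun _ hz => ⟨(ev_near hB hl hl1 hm hx (nr0 Q) hz).trans hγ,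
    (ev_near hB hl hl1 hm hx (nr1 Q) hz).trans hγ, (ev_near hB hl hl1 hm hx (nr2 Q) hz).trans hγ⟩

lemma conv {N : ℕ} (hN : 0 < N) {m : ℤ × ℤ} (hm : Nd N m) {e0 e1 e2 f : ℂ} {B : ℝ}
    (h0 : ‖e0 - f‖ ≤ B) (h1 : ‖e1 - f‖ ≤ B) (h2 : ‖e2 - f‖ ≤ B) :
    ‖(N : ℂ)⁻¹ * (((N : ℂ) - m.1 - m.2) * e0 + (m.1 : ℂ) * e1 + (m.2 : ℂ) * e2) - f‖ ≤ B := by
  have hN' : (N : ℂ) ≠ 0 := by exact_mod_cast hN.ne'
  have hNr : (0 : ℝ) < N := by exact_mod_cast hN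
  obtain ⟨a1, a2, a3⟩ := hm
  have b1 : (0 : ℝ) ≤ m.1 := by exact_mod_cast a1
  have b2 : (0 : ℝ) ≤ m.2 := by exact_mod_cast a2
  have b3 : (0 : ℝ) ≤ (N : ℝ) - m.1 - m.2 := by
    have : ((m.1 + m.2 : ℤ) : ℝ) ≤ ((N : ℤ) : ℝ) := by exact_mod_cast a3
    push_cast at this
    linarith
  have e : (N : ℂ)⁻¹ * (((N : ℂ) - m.1 - m.2) * e0 + (m.1 : ℂ) * e1 + (m.2 : ℂ) * e2) - f =
      (((N : ℝ)⁻¹ : ℝ) : ℂ) * (((((N : ℝ) - m.1 - m.2 : ℝ)) : ℂ) * (e0 - f) +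
        ((m.1 : ℝ) : ℂ) * (e1 - f) + ((m.2 : ℝ) : ℂ) * (e2 - f)) := by
    push_cast
    field_simp
    ring
  rw [e, norm_mul, Complex.norm_real, Real.norm_of_nonneg (inv_nonneg.2 hNr.le)]
  have c : ‖((((N : ℝ) - m.1 - m.2 : ℝ)) : ℂ) * (e0 - f) + ((m.1 : ℝ) : ℂ) * (e1 - f) +
      ((m.2 : ℝ) : ℂ) * (e2 - f)‖ ≤ N * B := by
    refine norm_add₃_le.trans ?_
    rw [norm_mul, norm_mul, norm_mul, Complex.norm_real, Complex.norm_real, Complex.norm_real,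
      Real.norm_of_nonneg b1, Real.norm_of_nonneg b2, Real.norm_of_nonneg b3]
    nlinarith [mul_le_mul_of_nonneg_left h0 b3, mul_le_mul_of_nonneg_left h1 b1,
      mul_le_mul_of_nonneg_left h2 b2]
  calc (N : ℝ)⁻¹ * _ ≤ (N : ℝ)⁻¹ * (N * B) := mul_le_mul_of_nonneg_left c (inv_nonneg.2 hNr.le)
    _ = B := by field_simp

lemma jet_ebar (hB : BASIC) (N : ℕ) (E0 E1 E2 : ℂ[X]) (m : ℤ × ℤ) (j : ℕ) (z : ℂ) :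
    jet (ebar N E0 E1 E2 m) j z = (N : ℂ)⁻¹ * (((N : ℂ) - m.1 - m.2) * jet E0 j z +
      (m.1 : ℂ) * jet E1 j z + (m.2 : ℂ) * jet E2 j z) := by
  rw [ebar, hB.jmul, hB.jadd, hB.jadd, hB.jmul, hB.jmul, hB.jmul]

/-- The polynomial of the node `m` of the cell `Q`. -/
def TT (r N : ℕ) (F : ℕ → ℂ → ℂ) (τ ε ℓ : ℝ) (ω : ℂ) (Q m : ℤ × ℤ) : ℂ[X] :=
  tnode N (EV (2 * r) F τ ℓ (V0 Q)) (EV (2 * r) F τ ℓ (V1 Q)) (EV (2 * r) F τ ℓ (V2 Q)) ε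
    (upol r ω (cen ℓ Q)) m

lemma close_TT (hB : BASIC) {r N : ℕ} {F : ℕ → ℂ → ℂ} {τ ε ℓ γ κ : ℝ} {ω : ℂ} (hτ : 0 < τ)
    (hl : 0 < ℓ) (hl1 : ℓ ≤ 1 / 10) (he : 0 < ε) (hω : ‖ω‖ = 1) (hN : 0 < N)
    (hm : Mo (2 * r) F ℓ γ) (hκ : γ + 2 * τ + 2 * (ε * r.factorial) ≤ κ / 2) {Q : ℤ × ℤ}
    (hx : ‖cen ℓ Q‖ ≤ 1) {m : ℤ × ℤ} (hd : Nd N m) :
    Close (2 * r) F κ (TT r N F τ ε ℓ ω Q m) (ball (cen ℓ Q) (2 * ℓ)) := by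
  intro j hj z hz
  rw [mem_ball, dist_eq_norm] at hz
  have hz3 : ‖z - cen ℓ Q‖ ≤ 3 * ℓ := by linarith
  have h1 := conv hN hd (ev_jet hB hτ hl hl1 hm hx (nr0 Q) hz3 hj)
    (ev_jet hB hτ hl hl1 hm hx (nr1 Q) hz3 hj) (ev_jet hB hτ hl hl1 hm hx (nr2 Q) hz3 hj)
  have h2 := hB.up r ω (cen ℓ Q) j z hω (by linarith)
  have h3 : ‖(((m.1 - m.2) % 3 : ℤ) : ℂ)‖ ≤ 2 := by
    rw [Complex.norm_intCast]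
    have : |(m.1 - m.2) % 3| ≤ 2 := by
      rw [abs_le]; constructor <;> omega
    exact_mod_cast this
  have h4 : ‖(ε : ℂ) * (((m.1 - m.2) % 3 : ℤ) : ℂ) * jet (upol r ω (cen ℓ Q)) j z‖ ≤
      2 * (ε * r.factorial) := by
    rw [norm_mul, norm_mul, Complex.norm_real, Real.norm_of_nonneg he.le]
    calc _ ≤ ε * 2 * r.factorial := by gcongr
      _ = _ := by ring
  rw [TT, tnode, hB.jadd, hB.jmul, jet_ebar hB, add_sub_right_comm]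
  exact (norm_add_le _ _).trans (by linarith)

lemma shv_TT (r N : ℕ) (F : ℕ → ℂ → ℂ) (τ ε ℓ : ℝ) (ω : ℂ) (i j x : ℤ) (h : (i + j) % 2 = 0)
    (hx : Sh N x) : TT r N F τ ε ℓ ω (i, j) (x, 0) = TT r N F τ ε ℓ ω (i, j + 1) (x, 0) := by
  have h' : ¬(i + (j + 1)) % 2 = 0 := by omega
  have e0 : V0 (i, j) = V0 (i, j + 1) := by simp only [V0, if_pos h, if_neg h']
  have e1 : V1 (i, j) = V1 (i, j + 1) := by simp only [V1, if_pos h, if_neg h']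
  have e3 : (x - 0) % 3 = 0 := by have := hx.2.2; omega
  simp only [TT, tnode, ebar, e0, e1, e3, Int.cast_zero, mul_zero, C_0, zero_mul]

lemma shh_TT (r N : ℕ) (hN : 6 ∣ N) (F : ℕ → ℂ → ℂ) (τ ε ℓ : ℝ) (ω : ℂ) (k j x : ℤ)
    (hx : Sh N x) :
    TT r N F τ ε ℓ ω (k - 1, j) (x, N - x) = TT r N F τ ε ℓ ω (k, j) (0, x) := by
  have e0 : V2 (k - 1, j) = V0 (k, j) := by
    simp only [V0, V2]
    split_ifs <;> first | rfl | omega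
  have e1 : V1 (k - 1, j) = V2 (k, j) := by
    simp only [V1, V2, sub_add_cancel]
    split_ifs <;> first | rfl | omega
  have e3 : (x - (N - x)) % 3 = 0 := by have := hx.2.2; omega
  have e4 : (0 - x) % 3 = 0 := by have := hx.2.2; omega
  have e5 : (N : ℂ) - (x : ℂ) - (((N : ℤ) - x : ℤ) : ℂ) = 0 := by push_cast; ring
  have e6 : (N : ℂ) - 0 - (x : ℂ) = (((N : ℤ) - x : ℤ) : ℂ) := by push_cast; ring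
  simp only [TT, tnode, ebar, e0, e1, e3, e4, e5, e6, Int.cast_zero, mul_zero, C_0, zero_mul,
    add_zero, zero_add]
  rw [add_comm]

lemma eval_TT (hB : BASIC) (r N : ℕ) (F : ℕ → ℂ → ℂ) (τ ε ℓ : ℝ) (ω : ℂ) {k : ℤ} (hk : k % 3 = 0)
    (j : ℤ) {x : ℤ} (hx : x % 3 = 0) (z : ℂ) :
    (TT r N F τ ε ℓ ω (k, j) (0, x)).eval z = (N : ℂ)⁻¹ *
      (((N : ℂ) - x) * (jet (tay (2 * r + 1) F (vtx ℓ (V0 (k, j)))) 0 z - τ) +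
        (x : ℂ) * (jet (tay (2 * r + 1) F (vtx ℓ (V2 (k, j)))) 0 z + τ)) := by
  have e4 : (0 - x) % 3 = 0 := by omega
  have a0 : acol (V0 (k, j)).1 = -1 := by
    have : (k - 1) % 3 = 2 := by omega
    simp only [V0, acol, this, if_true]
  have a2 : acol (V2 (k, j)).1 = 1 := by
    simp only [V2, acol, hk]
    simp
  simp only [TT, tnode, ebar, e4, Int.cast_zero, mul_zero, C_0, zero_mul, add_zero, eval_mul,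
    eval_add, eval_C, ev_eval hB, a0, a2]
  ring

lemma side_TT (hB : BASIC) {r N xw : ℕ} {F : ℕ → ℂ → ℂ} {τ ε ℓ γ : ℝ} {ω : ℂ} (hτ : 0 < τ)
    (hl : 0 < ℓ) (hl1 : ℓ ≤ 1 / 10) (hN : 0 < N) (hxw : 2 * xw + 6 ≤ N)
    (hm : Mo (2 * r) F ℓ γ) {k j : ℤ} (hk : k % 3 = 0) (hc : ‖cen ℓ (k, j)‖ ≤ 1) {x : ℤ}
    (hx : x % 3 = 0) (hx2 : |2 * x - N| ≤ 2 * xw) {z : ℂ} (hz : z ∈ ball (cen ℓ (k, j)) ℓ) :
    ‖(TT r N F τ ε ℓ ω (k, j) (0, x)).eval z - F 0 z‖ ≤ γ + 2 * τ * xw / N := by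
  rw [mem_ball, dist_eq_norm] at hz
  have hz3 : ‖z - cen ℓ (k, j)‖ ≤ 3 * ℓ := by linarith
  have hN' : (N : ℂ) ≠ 0 := by exact_mod_cast hN.ne'
  have hNr : (0 : ℝ) < N := by exact_mod_cast hN
  have hd : Nd N (0, x) := by
    rw [abs_le] at hx2
    refine ⟨le_rfl, ?_, ?_⟩ <;> simp only <;> omega
  have t0 := tay_near hl hl1 hm hc (nr0 (k, j)) hz3 (Nat.zero_le _)
  have t2 := tay_near hl hl1 hm hc (nr2 (k, j)) hz3 (Nat.zero_le _)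
  have h1 := conv hN hd t0 t0 t2
  have h2 : ‖(τ : ℂ) * ((2 * x - N : ℤ) : ℂ) / N‖ ≤ 2 * τ * xw / N := by
    rw [norm_div, norm_mul, Complex.norm_real, Real.norm_of_nonneg hτ.le, Complex.norm_intCast,
      Complex.norm_natCast]
    have : |((2 * x - N : ℤ) : ℝ)| ≤ 2 * xw := by exact_mod_cast hx2
    gcongr ?_ / _
    nlinarith
  refine le_trans (le_of_eq ?_) ((norm_add_le _ _).trans (add_le_add h1 h2))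
  rw [eval_TT hB r N F τ ε ℓ ω hk j hx]
  congr 1
  push_cast
  field_simp
  ring

lemma diff_TT (hB : BASIC) {r N : ℕ} {F : ℕ → ℂ → ℂ} {τ ε ℓ γ : ℝ} {ω : ℂ} (hτ : 0 < τ)
    (hl : 0 < ℓ) (hl1 : ℓ ≤ 1 / 10) (hN : 0 < N) (hm : Mo (2 * r) F ℓ γ) (hγ : 2 * γ ≤ τ)
    {k j : ℤ} (hk : k % 3 = 0) (hc : ‖cen ℓ (k, j)‖ ≤ 1) {x x' : ℤ} (hx : x % 3 = 0)
    (hx' : x' % 3 = 0) {z : ℂ} (hz : z ∈ ball (cen ℓ (k, j)) ℓ) :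
    ‖(TT r N F τ ε ℓ ω (k, j) (0, x') - TT r N F τ ε ℓ ω (k, j) (0, x)).eval z‖ ≤
      3 * τ / N * |((x' - x : ℤ) : ℝ)| := by
  rw [mem_ball, dist_eq_norm] at hz
  have hz3 : ‖z - cen ℓ (k, j)‖ ≤ 3 * ℓ := by linarith
  have hNr : (0 : ℝ) < N := by exact_mod_cast hN
  have t0 := tay_near hl hl1 hm hc (nr0 (k, j)) hz3 (Nat.zero_le _)
  have t2 := tay_near hl hl1 hm hc (nr2 (k, j)) hz3 (Nat.zero_le _)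
  rw [eval_sub, eval_TT hB r N F τ ε ℓ ω hk j hx, eval_TT hB r N F τ ε ℓ ω hk j hx']
  set a := jet (tay (2 * r + 1) F (vtx ℓ (V0 (k, j)))) 0 z
  set b := jet (tay (2 * r + 1) F (vtx ℓ (V2 (k, j)))) 0 z
  have e : (N : ℂ)⁻¹ * (((N : ℂ) - x') * (a - τ) + (x' : ℂ) * (b + τ)) -
      (N : ℂ)⁻¹ * (((N : ℂ) - x) * (a - τ) + (x : ℂ) * (b + τ)) =
      ((b - F 0 z) - (a - F 0 z) + ((2 * τ : ℝ) : ℂ)) / N * ((x' - x : ℤ) : ℂ) := by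
    push_cast
    ring
  have h1 : ‖(b - F 0 z) - (a - F 0 z) + ((2 * τ : ℝ) : ℂ)‖ ≤ 3 * τ := by
    refine (norm_add_le _ _).trans ?_
    have := norm_sub_le (b - F 0 z) (a - F 0 z)
    rw [Complex.norm_real, Real.norm_of_nonneg (by linarith)]
    linarith
  rw [e, norm_mul, norm_div, Complex.norm_intCast, Complex.norm_natCast]
  gcongr

end

end Pool.Agent.MP_d32a63_an.H39
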